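import Pool.Agent.MP_6bef34_co.H60.Lift

namespace Pool.Agent.Results.MP_6bef34_co.FiveDim

open Pool.Agent.MP_6bef34_co.H60

theorem result : ∀ d : ℕ, 5 ≤ d → ∀ R D : ℕ,
    ∃ (k : Fin d → ℤ) (P : Finset (Fin d → ℤ)), P.card = R ∧ k ∉ P ∧ ¬ InCheck k P ∧
      (∀ r ∈ P, Slab r ∧ ∃ i, (D : ℤ) ≤ |r i - k i|) ∧
      ∃ S : Set ((Fin d → ℤ) × Finset (Fin d → ℤ)), (k, P) ∈ S ∧
        ∀ p ∈ S, Slab p.1 ∧ ∀ P', WhiteMove p.1 p.2 P' →
          ∃ k', KingMove p.1 P' k' ∧ (k', P'.erase k') ∈ S := by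
  intro d hd R D
  obtain ⟨m, rfl⟩ : ∃ m, d = m + 5 := ⟨d - 5, by omega⟩
  have hinj : Function.Injective fun j : ℕ => emb m (-(D : ℤ) - 1 - j, 0) 0 := fun a b h => by
    have := congrArg (fun r => (tx r).1) h
    simp only [tx_emb] at this
    omega
  have hP : ∀ r ∈ (Finset.range R).image fun j : ℕ => emb m (-(D : ℤ) - 1 - j, 0) 0,
      ∃ j : ℕ, r = emb m (-(D : ℤ) - 1 - j, 0) 0 := fun r hr => by
    obtain ⟨j, -, rfl⟩ := Finset.mem_image.1 hr
    exact ⟨j, rfl⟩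
  refine ⟨emb m (0, 0) 0, (Finset.range R).image fun j : ℕ => emb m (-(D : ℤ) - 1 - j, 0) 0,
    by rw [Finset.card_image_of_injective _ hinj, Finset.card_range], fun h => ?_, ?_,
    fun r hr => ?_, {p | Safe p}, ⟨(0, 0), 0, 0, rfl, Or.inl rfl, fun x hx => ?_, not_trap⟩,
    fun p hp => ⟨?_, fun P' h => Safe.step hp h⟩⟩
  · obtain ⟨j, hj⟩ := hP _ h
    have := congrArg (fun r => (tx r).1) hj
    simp only [tx_emb] at this
    omega
  · rintro ⟨r, hr, i, -, hi, -⟩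
    obtain ⟨j, rfl⟩ := hP r hr
    rcases tok_of_line hi with a | a
    · have := congrArg Prod.fst a
      simp only [tx_emb] at this
      omega
    · have := congrArg Prod.fst a
      simp only [ty_emb] at this
      omega
  · obtain ⟨j, rfl⟩ := hP r hr
    refine ⟨slab_emb _ (Or.inl rfl), ⟨0, by omega⟩, ?_⟩
    simp only [emb, true_or, if_true, sub_zero]
    rw [le_abs]
    omega
  · rw [Multiset.count_zero, Nat.le_zero, Multiset.count_eq_zero, toks, Multiset.mem_add]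
    rintro (h | h) <;> obtain ⟨r, hr, rfl⟩ := Multiset.mem_map.1 h <;>
      obtain ⟨j, rfl⟩ := hP r hr
    · rw [tx_emb] at hx
      simp only at hx
      omega
    · rw [ty_emb] at hx
      simp only at hx
      omega
  · obtain ⟨c, w, T, h1, h2, -⟩ := hp
    rw [h1]
    exact slab_emb c h2

end Pool.Agent.Results.MP_6bef34_co.FiveDim
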