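import Pool.Agent.MP_6bef34_co.H7.Fin
import Pool.Agent.MP_6bef34_co.H7.Force
import Pool.Agent.MP_6bef34_co.H7.End
import Pool.Agent.MP_6bef34_co.H7.Next

namespace Pool.Agent.Results.MP_6bef34_co.FourDim

open Pool.Agent.MP_6bef34_co Pool.Agent.MP_6bef34_co.H60

theorem result : ∀ R D : ℕ, ∃ (k : Fin 4 → ℤ) (P : Finset (Fin 4 → ℤ)),
    P.card = R ∧ k ∉ P ∧ ¬ InCheck k P ∧ (∀ r ∈ P, ∃ i, (D : ℤ) ≤ |r i - k i|) ∧
      ¬ H7.Forces k P := by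
  intro R D
  obtain ⟨k, P, h1, h2, h3, h4, S, h5, h6⟩ := H7.final_of
    (fun _ _ G => H88.no_lost G fun _ h => H88.next G h) R D
  exact ⟨k, P, h1, h2, h3, h4, fun h => H7.not_forces h6 h h5⟩

end Pool.Agent.Results.MP_6bef34_co.FourDim
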